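import Mathlib

set_option autoImplicit false

/-!
Right inverses of `T - 1` from a splitting, and the shadowing property from a (nonlinear)
decomposition of the vectors.
-/

open Filter Set

namespace Pool.Agent.Helper368_SH

noncomputable section

section pow

variable {𝕜 : Type} [RCLike 𝕜] {E : Type} [NormedAddCommGroup E] [NormedSpace 𝕜 E]

/-- Iterates of a restriction. -/
theorem restr_pow (T : E → E) (M : Submodule 𝕜 E) (A : M →L[𝕜] M) (hA : ∀ x : M, (A x : E) = T x)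
    (n : ℕ) (x : M) : (((A ^ n) x : M) : E) = T^[n] x := by
  induction n generalizing x with
  | zero => rfl
  | succ n ih =>
    rw [pow_succ, Function.iterate_succ_apply, ← hA x]
    exact ih (A x)

/-- If a power of `A` is a strict contraction then `1 - A` has a right inverse. -/
theorem pow_rinv [CompleteSpace E] (A : E →L[𝕜] E) (n : ℕ) (c : ℝ) (hc : c < 1)
    (h : ∀ x, ‖(A ^ n) x‖ ≤ c * ‖x‖) : ∃ R : E →L[𝕜] E, ∀ x, R x - A (R x) = x := by
  have h1 : ‖A ^ n‖ < 1 := by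
    refine lt_of_le_of_lt (ContinuousLinearMap.opNorm_le_bound _ (le_max_right c 0) fun x => ?_)
      (max_lt hc one_pos)
    exact (h x).trans (mul_le_mul_of_nonneg_right (le_max_left c 0) (norm_nonneg x))
  obtain ⟨u, hu⟩ := isUnit_one_sub_of_norm_lt_one h1
  refine ⟨(∑ i ∈ Finset.range n, A ^ i) * (↑u⁻¹ : E →L[𝕜] E), fun x => ?_⟩
  have h2 : (1 - A) * ((∑ i ∈ Finset.range n, A ^ i) * (↑u⁻¹ : E →L[𝕜] E)) = 1 := by
    rw [← mul_assoc, mul_neg_geom_sum, ← hu]
    exact u.mul_inv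
  have h3 := congrArg (fun f : E →L[𝕜] E => f x) h2
  exact h3

set_option linter.deprecated false in
/-- The right inverse of `T - 1` for a splitting. -/
theorem gh_rinv [CompleteSpace E] (T : E ≃L[𝕜] E) (M N : Submodule 𝕜 E) (hM : IsClosed (M : Set E))
    (hN : IsClosed (N : Set E)) (hMN : IsCompl M N) (hTM : ∀ x ∈ M, T x ∈ M)
    (hTN : ∀ x ∈ N, T.symm x ∈ N)
    (m : ℕ) (c : ℝ) (hc : c < 1) (hm : ∀ x ∈ M, ‖T^[m] x‖ ≤ c * ‖x‖)
    (n : ℕ) (d : ℝ) (hd : d < 1) (hn : ∀ x ∈ N, ‖T.symm^[n] x‖ ≤ d * ‖x‖) :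
    ∃ R : E →L[𝕜] E, ∀ x, T (R x) - R x = x := by
  have : CompleteSpace M := hM.completeSpace_coe
  have : CompleteSpace N := hN.completeSpace_coe
  let A : M →L[𝕜] M := ((T : E →L[𝕜] E).comp M.subtypeL).codRestrict M (fun x => hTM x x.2)
  let A' : N →L[𝕜] N := ((T.symm : E →L[𝕜] E).comp N.subtypeL).codRestrict N (fun x => hTN x x.2)
  have hA : ∀ x : M, (A x : E) = T x := fun x => rfl
  have hA' : ∀ x : N, (A' x : E) = T.symm x := fun x => rfl
  obtain ⟨R1, hR1⟩ := pow_rinv A m c hc (fun x => by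
    show ‖(((A ^ m) x : M) : E)‖ ≤ c * ‖(x : E)‖
    rw [restr_pow T M A hA]
    exact hm x x.2)
  obtain ⟨R2, hR2⟩ := pow_rinv A' n d hd (fun x => by
    show ‖(((A' ^ n) x : N) : E)‖ ≤ d * ‖(x : E)‖
    rw [restr_pow T.symm N A' hA']
    exact hn x x.2)
  let e := Submodule.prodEquivOfClosedCompl M N hMN hM hN
  have he : ∀ x : M × N, e x = (x.1 : E) + x.2 := fun x => rfl
  refine ⟨-(M.subtypeL.comp (R1.comp ((ContinuousLinearMap.fst 𝕜 M N).comp
      (e.symm : E →L[𝕜] M × N)))) +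
    (T.symm : E →L[𝕜] E).comp (N.subtypeL.comp (R2.comp ((ContinuousLinearMap.snd 𝕜 M N).comp
      (e.symm : E →L[𝕜] M × N)))), fun x => ?_⟩
  set a : M := (e.symm x).1 with ha
  set b : N := (e.symm x).2 with hb
  show T (-((R1 a : M) : E) + T.symm ((R2 b : N) : E)) -
    (-((R1 a : M) : E) + T.symm ((R2 b : N) : E)) = x
  have h1 : ((R1 a : M) : E) - T (R1 a) = a := by
    have := congrArg (fun y : M => (y : E)) (hR1 a)
    exact this
  have h2 : ((R2 b : N) : E) - T.symm (R2 b) = b := by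
    have := congrArg (fun y : N => (y : E)) (hR2 b)
    exact this
  have h3 : (a : E) + b = x := by
    have h4 := he (e.symm x)
    rw [ContinuousLinearEquiv.apply_symm_apply] at h4
    exact h4.symm
  rw [map_add, map_neg, ContinuousLinearEquiv.apply_symm_apply]
  calc -T ((R1 a : M) : E) + ((R2 b : N) : E) - (-((R1 a : M) : E) + T.symm ((R2 b : N) : E))
      = (((R1 a : M) : E) - T (R1 a)) + (((R2 b : N) : E) - T.symm (R2 b)) := by abel
    _ = x := by rw [h1, h2, h3]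

end pow

section shadow

variable {𝕜 : Type} [RCLike 𝕜] {B : Type} [NormedAddCommGroup B] [NormedSpace 𝕜 B]
  [CompleteSpace B]

theorem geo (K C : ℝ) : HasSum (fun i : ℕ => K * (1 / 2) ^ i * C) (2 * K * C) := by
  have h1 := (hasSum_geometric_two.mul_left K).mul_right C
  have h2 : K * 2 * C = 2 * K * C := by ring
  rw [h2] at h1
  exact h1

theorem shadow_of_decomp (T : B ≃L[𝕜] B) (K : ℝ) (hK : 0 < K)
    (h : ∀ x : B, ∃ v u : B, x = v + u ∧ (∀ i : ℕ, ‖(T^[i]) v‖ ≤ K * (1 / 2) ^ i * ‖x‖) ∧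
      (∀ i : ℕ, ‖(T.symm^[i]) u‖ ≤ K * (1 / 2) ^ i * ‖x‖)) :
    ∃ K' : ℝ, 0 < K' ∧ ∀ (z : ℤ → B) (C : ℝ), (∀ n, ‖z n‖ ≤ C) →
      ∃ y : ℤ → B, (∀ n, y (n + 1) - T (y n) = z n) ∧ ∀ n, ‖y n‖ ≤ K' * C := by
  refine ⟨4 * K, by linarith, fun z C hz => ?_⟩
  have hC : 0 ≤ C := (norm_nonneg _).trans (hz 0)
  choose v u hvu hv hu using h
  have hv' : ∀ n i, ‖(T^[i]) (v (z n))‖ ≤ K * (1 / 2) ^ i * C := fun n i =>
    (hv (z n) i).trans (mul_le_mul_of_nonneg_left (hz n) (by positivity))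
  have hu' : ∀ n i, ‖(T.symm^[i]) (u (z n))‖ ≤ K * (1 / 2) ^ i * C := fun n i =>
    (hu (z n) i).trans (mul_le_mul_of_nonneg_left (hz n) (by positivity))
  have hsv : ∀ n : ℤ, Summable fun i : ℕ => (T^[i]) (v (z (n - i))) := fun n =>
    Summable.of_norm_bounded (geo K C).summable fun i => hv' _ i
  have hsu : ∀ n : ℤ, Summable fun i : ℕ => (T.symm^[i]) (u (z (n + i))) := fun n =>
    Summable.of_norm_bounded (geo K C).summable fun i => hu' _ i
  set P : ℤ → B := fun n => ∑' i : ℕ, (T^[i]) (v (z (n - i))) with hP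
  set Q : ℤ → B := fun n => ∑' i : ℕ, (T.symm^[i]) (u (z (n + i))) with hQ
  have hPn : ∀ n, ‖P n‖ ≤ 2 * K * C := fun n =>
    tsum_of_norm_bounded (geo K C) fun i => hv' _ i
  have hQn : ∀ n, ‖Q n‖ ≤ 2 * K * C := fun n =>
    tsum_of_norm_bounded (geo K C) fun i => hu' _ i
  have hPr : ∀ n, P n = v (z n) + T (P (n - 1)) := by
    intro n
    have h1 : P n = (T^[0]) (v (z (n - ((0 : ℕ) : ℤ)))) +
        ∑' i : ℕ, (T^[i + 1]) (v (z (n - ((i + 1 : ℕ) : ℤ)))) := (hsv n).tsum_eq_zero_add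
    rw [h1]
    congr 1
    · simp
    · have h2 : T (P (n - 1)) = ∑' i : ℕ, T ((T^[i]) (v (z (n - 1 - i)))) :=
        T.map_tsum
      rw [h2]
      refine tsum_congr fun i => ?_
      rw [Function.iterate_succ_apply']
      congr 4
      push_cast
      ring
  have hQr : ∀ n, Q n = u (z n) + T.symm (Q (n + 1)) := by
    intro n
    have h1 : Q n = (T.symm^[0]) (u (z (n + ((0 : ℕ) : ℤ)))) +
        ∑' i : ℕ, (T.symm^[i + 1]) (u (z (n + ((i + 1 : ℕ) : ℤ)))) := (hsu n).tsum_eq_zero_add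
    rw [h1]
    congr 1
    · simp
    · have h2 : T.symm (Q (n + 1)) = ∑' i : ℕ, T.symm ((T.symm^[i]) (u (z (n + 1 + i)))) :=
        T.symm.map_tsum
      rw [h2]
      refine tsum_congr fun i => ?_
      rw [Function.iterate_succ_apply']
      congr 4
      push_cast
      ring
  refine ⟨fun n => P (n - 1) - T.symm (Q n), ?_, ?_⟩
  · intro n
    show P (n + 1 - 1) - T.symm (Q (n + 1)) - T (P (n - 1) - T.symm (Q n)) = z n
    rw [add_sub_cancel_right, map_sub, ContinuousLinearEquiv.apply_symm_apply]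
    have h1 := hPr n
    have h2 := hQr n
    have h3 := hvu (z n)
    calc P n - T.symm (Q (n + 1)) - (T (P (n - 1)) - Q n)
        = (P n - T (P (n - 1))) + (Q n - T.symm (Q (n + 1))) := by abel
      _ = v (z n) + u (z n) := by
          rw [h1, h2]
          congr 1
          · rw [add_sub_cancel_right]
          · rw [add_sub_cancel_right]
      _ = z n := h3.symm
  · intro n
    have h1 : T.symm (Q n) = Q (n - 1) - u (z (n - 1)) := by
      have h2 := hQr (n - 1)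
      rw [sub_add_cancel] at h2
      rw [h2, add_sub_cancel_left]
    have h3 : ‖T.symm (Q n)‖ ≤ 2 * K * C := by
      have h4 : T.symm (Q n) = ∑' i : ℕ, T.symm ((T.symm^[i]) (u (z (n + i)))) := T.symm.map_tsum
      rw [h4]
      refine (tsum_of_norm_bounded (geo (K / 2) C) fun i => ?_).trans ?_
      · have h5 : T.symm ((T.symm^[i]) (u (z (n + i)))) = (T.symm^[i + 1]) (u (z (n + i))) :=
          (Function.iterate_succ_apply' _ _ _).symm
        rw [h5]
        refine (hu' _ (i + 1)).trans (le_of_eq ?_)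
        rw [pow_succ]; ring
      · nlinarith [mul_nonneg hK.le hC]
    calc ‖P (n - 1) - T.symm (Q n)‖ ≤ ‖P (n - 1)‖ + ‖T.symm (Q n)‖ := norm_sub_le _ _
      _ ≤ 2 * K * C + 2 * K * C := add_le_add (hPn _) h3
      _ = 4 * K * C := by ring

end shadow

end

end Pool.Agent.Helper368_SH
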