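import Mathlib

set_option autoImplicit false

/-!
Shift operators with operator weights on `ℓp(ℤ, V)`.
-/

open Filter Set
open scoped ENNReal

namespace Pool.Agent.Helper368_SH

noncomputable section

variable {𝕜 : Type} [RCLike 𝕜] {V : Type} [NormedAddCommGroup V] [NormedSpace 𝕜 V]
  {p : ℝ≥0∞} [Fact (1 ≤ p)]

/-- The space `ℓp(ℤ, V)`. -/
abbrev Lp (V : Type) [NormedAddCommGroup V] (p : ℝ≥0∞) : Type := lp (fun _ : ℤ => V) p

theorem one_pos' : (p : ℝ≥0∞) ≠ 0 := (zero_lt_one.trans_le (Fact.out : 1 ≤ p)).ne'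

theorem lp_mem (F : Lp V p) (e : ℤ ≃ ℤ) (G : ℤ → V) (c : ℝ) (hc : 0 ≤ c)
    (h : ∀ n, ‖G n‖ ≤ c * ‖F (e n)‖) : Memℓp G p := by
  by_cases hp : p = ∞
  · subst hp
    rw [memℓp_infty_iff]
    refine ⟨c * ‖F‖, ?_⟩
    rintro _ ⟨n, rfl⟩
    exact (h n).trans (mul_le_mul_of_nonneg_left (lp.norm_apply_le_norm one_pos' F _) hc)
  · have hp0 : 0 < p.toReal := ENNReal.toReal_pos one_pos' hp
    rw [memℓp_gen_iff hp0]
    have h1 : Summable fun n => ‖F n‖ ^ p.toReal := (lp.memℓp F).summable hp0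
    have h2 : Summable fun n => ‖F (e n)‖ ^ p.toReal := e.summable_iff.2 h1
    refine Summable.of_nonneg_of_le (fun n => by positivity) (fun n => ?_)
      (h2.mul_left (c ^ p.toReal))
    rw [← Real.mul_rpow hc (norm_nonneg _)]
    exact Real.rpow_le_rpow (norm_nonneg _) (h n) hp0.le

theorem lp_norm (F : Lp V p) (e : ℤ ≃ ℤ) (G : Lp V p) (c : ℝ) (hc : 0 ≤ c)
    (h : ∀ n, ‖G n‖ ≤ c * ‖F (e n)‖) : ‖G‖ ≤ c * ‖F‖ := by
  by_cases hp : p = ∞
  · subst hp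
    refine lp.norm_le_of_forall_le (by positivity) fun n => ?_
    exact (h n).trans (mul_le_mul_of_nonneg_left (lp.norm_apply_le_norm one_pos' F _) hc)
  · have hp0 : 0 < p.toReal := ENNReal.toReal_pos one_pos' hp
    refine lp.norm_le_of_tsum_le hp0 (by positivity) ?_
    rw [Real.mul_rpow hc (norm_nonneg _), lp.norm_rpow_eq_tsum hp0, ← tsum_mul_left]
    have h1 : Summable fun n => ‖F n‖ ^ p.toReal := (lp.memℓp F).summable hp0
    have h2 : Summable fun n => ‖F (e n)‖ ^ p.toReal := e.summable_iff.2 h1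
    have h3 : ∑' n, c ^ p.toReal * ‖F n‖ ^ p.toReal = ∑' n, c ^ p.toReal * ‖F (e n)‖ ^ p.toReal :=
      (e.tsum_eq (fun n => c ^ p.toReal * ‖F n‖ ^ p.toReal)).symm
    rw [h3]
    refine Summable.tsum_le_tsum (fun n => ?_) ((lp.memℓp G).summable hp0)
      (h2.mul_left (c ^ p.toReal))
    rw [← Real.mul_rpow hc (norm_nonneg _)]
    exact Real.rpow_le_rpow (norm_nonneg _) (h n) hp0.le

/-- The operator `(x n) ↦ (A n (x (e n)))`. -/
def wcomp (A : ℤ → V →L[𝕜] V) (e : ℤ ≃ ℤ) (c : ℝ) (hc : 0 ≤ c) (hA : ∀ n, ‖A n‖ ≤ c) :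
    Lp V p →L[𝕜] Lp V p :=
  LinearMap.mkContinuous
    { toFun := fun x => ⟨fun n => A n (x (e n)), lp_mem x e _ c hc fun n =>
        (A n).le_of_opNorm_le (hA n) _⟩
      map_add' := fun x y => by
        apply lp.ext
        funext n
        exact map_add (A n) _ _
      map_smul' := fun k x => by
        apply lp.ext
        funext n
        exact map_smul (A n) _ _ } c (fun x =>
    lp_norm x e _ c hc fun n => (A n).le_of_opNorm_le (hA n) _)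

theorem wcomp_apply (A : ℤ → V →L[𝕜] V) (e : ℤ ≃ ℤ) (c : ℝ) (hc : 0 ≤ c) (hA : ∀ n, ‖A n‖ ≤ c)
    (x : Lp V p) (n : ℤ) : wcomp (p := p) A e c hc hA x n = A n (x (e n)) := rfl

/-- The shift operator `(x n) ↦ (S (n + 1) (x (n + 1)))`. -/
def shiftOp (p : ℝ≥0∞) [Fact (1 ≤ p)] (S : ℤ → V ≃L[𝕜] V) (c : ℝ) (hc : 0 ≤ c)
    (hS : ∀ n, ‖(S n : V →L[𝕜] V)‖ ≤ c) (hS' : ∀ n, ‖((S n).symm : V →L[𝕜] V)‖ ≤ c) :
    Lp V p ≃L[𝕜] Lp V p :=
  ContinuousLinearEquiv.equivOfInverse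
    (wcomp (fun n => (S (n + 1) : V →L[𝕜] V)) (Equiv.addRight 1) c hc fun n => hS (n + 1))
    (wcomp (fun n => ((S n).symm : V →L[𝕜] V)) (Equiv.addRight (-1)) c hc fun n => hS' n)
    (fun x => by
      apply lp.ext
      funext n
      rw [wcomp_apply, wcomp_apply]
      show (S n).symm (S (n + -1 + 1) (x (n + -1 + 1))) = x n
      rw [neg_add_cancel_right, ContinuousLinearEquiv.symm_apply_apply])
    (fun x => by
      apply lp.ext
      funext n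
      rw [wcomp_apply, wcomp_apply]
      show S (n + 1) ((S (n + 1)).symm (x (n + 1 + -1))) = x n
      rw [add_neg_cancel_right, ContinuousLinearEquiv.apply_symm_apply])

theorem shiftOp_apply (S : ℤ → V ≃L[𝕜] V) (c : ℝ) (hc : 0 ≤ c)
    (hS : ∀ n, ‖(S n : V →L[𝕜] V)‖ ≤ c) (hS' : ∀ n, ‖((S n).symm : V →L[𝕜] V)‖ ≤ c)
    (x : Lp V p) (n : ℤ) : shiftOp p S c hc hS hS' x n = S (n + 1) (x (n + 1)) := rfl

theorem shiftOp_symm_apply (S : ℤ → V ≃L[𝕜] V) (c : ℝ) (hc : 0 ≤ c)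
    (hS : ∀ n, ‖(S n : V →L[𝕜] V)‖ ≤ c) (hS' : ∀ n, ‖((S n).symm : V →L[𝕜] V)‖ ≤ c)
    (x : Lp V p) (n : ℤ) : (shiftOp p S c hc hS hS').symm x n = (S n).symm (x (n - 1)) := by
  show (S n).symm (x (n + -1)) = (S n).symm (x (n - 1))
  rw [sub_eq_add_neg]

end

end Pool.Agent.Helper368_SH
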