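import Mathlib
import Pool.Agent.Helper368_SH.GH
import Pool.Agent.Helper368_SH.LpShift

set_option autoImplicit false

/-!
The Banach space `V` and the weights `S n` of the counterexample.
An element of `V` is a bounded function `h : ℕ × ℕ → X` with `4 ^ k * ‖q (h (k, j))‖` bounded.
-/

open Filter Set
open scoped ENNReal

namespace Pool.Agent.Helper368_SH

noncomputable section

variable {𝕜 : Type} [RCLike 𝕜] {X W : Type} [NormedAddCommGroup X] [NormedSpace 𝕜 X]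
  [NormedAddCommGroup W] [NormedSpace 𝕜 W]

/-- The space `V`, as a subspace of the bounded functions with values in `X × W`. -/
def Vs (q : X →L[𝕜] W) : Submodule 𝕜 (BoundedContinuousFunction (ℕ × ℕ) (X × W)) where
  carrier := {g | ∀ p, (g p).2 = (4 ^ p.1 : 𝕜) • q (g p).1}
  zero_mem' := fun p => by simp
  add_mem' := by
    intro a b ha hb p
    show (a p).2 + (b p).2 = (4 ^ p.1 : 𝕜) • q ((a p).1 + (b p).1)
    rw [ha p, hb p, map_add, smul_add]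
  smul_mem' := by
    intro c a ha p
    show c • (a p).2 = (4 ^ p.1 : 𝕜) • q (c • (a p).1)
    rw [ha p, map_smul, smul_comm]

theorem Vs_closed (q : X →L[𝕜] W) :
    IsClosed ((Vs q : Submodule 𝕜 (BoundedContinuousFunction (ℕ × ℕ) (X × W))) :
      Set (BoundedContinuousFunction (ℕ × ℕ) (X × W))) := by
  have h1 : ((Vs q : Submodule 𝕜 (BoundedContinuousFunction (ℕ × ℕ) (X × W))) :
      Set (BoundedContinuousFunction (ℕ × ℕ) (X × W))) =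
      ⋂ p : ℕ × ℕ, {g | (g p).2 = (4 ^ p.1 : 𝕜) • q (g p).1} := by
    ext g
    rw [mem_iInter]
    exact Iff.rfl
  rw [h1]
  refine isClosed_iInter fun p => isClosed_eq ?_ ?_
  · exact continuous_snd.comp
      (BoundedContinuousFunction.evalCLM 𝕜 (β := X × W) p).continuous
  · exact (q.continuous.comp (continuous_fst.comp
      (BoundedContinuousFunction.evalCLM 𝕜 (β := X × W) p).continuous)).const_smul _

/-- The space `V` as a type. -/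
def VT (q : X →L[𝕜] W) : Type := Vs q

instance (q : X →L[𝕜] W) : NormedAddCommGroup (VT q) := inferInstanceAs (NormedAddCommGroup (Vs q))

instance (q : X →L[𝕜] W) : NormedSpace 𝕜 (VT q) := inferInstanceAs (NormedSpace 𝕜 (Vs q))

instance (q : X →L[𝕜] W) [CompleteSpace X] [CompleteSpace W] : CompleteSpace (VT q) :=
  (Vs_closed q).completeSpace_coe

variable {q : X →L[𝕜] W}

/-- The `X`-values of an element of `V`. -/
def val (h : VT q) (p : ℕ × ℕ) : X := (h.1 p).1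

theorem val_add (h g : VT q) (p : ℕ × ℕ) : val (h + g) p = val h p + val g p := rfl
theorem val_sub (h g : VT q) (p : ℕ × ℕ) : val (h - g) p = val h p - val g p := rfl
theorem val_smul (c : 𝕜) (h : VT q) (p : ℕ × ℕ) : val (c • h) p = c • val h p := rfl
theorem val_zero (p : ℕ × ℕ) : val (0 : VT q) p = 0 := rfl

theorem norm_four (k : ℕ) : ‖(4 ^ k : 𝕜)‖ = 4 ^ k := by
  rw [norm_pow, RCLike.norm_ofNat]

theorem val_le (h : VT q) (p : ℕ × ℕ) : ‖val h p‖ ≤ ‖h‖ :=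
  (norm_fst_le (h.1 p)).trans (h.1.norm_coe_le_norm p)

theorem qval_le (h : VT q) (p : ℕ × ℕ) : 4 ^ p.1 * ‖q (val h p)‖ ≤ ‖h‖ := by
  have h1 := (norm_snd_le (h.1 p)).trans (h.1.norm_coe_le_norm p)
  rw [h.2 p, norm_smul, norm_four] at h1
  exact h1

theorem norm_le_of (h : VT q) (C : ℝ) (hC : 0 ≤ C) (h1 : ∀ p, ‖val h p‖ ≤ C)
    (h2 : ∀ p, 4 ^ p.1 * ‖q (val h p)‖ ≤ C) : ‖h‖ ≤ C := by
  show ‖h.1‖ ≤ C
  rw [BoundedContinuousFunction.norm_le hC]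
  intro p
  rw [Prod.norm_def]
  refine max_le (h1 p) ?_
  rw [h.2 p, norm_smul, norm_four]
  exact h2 p

theorem val_ext {h g : VT q} (H : ∀ p, val h p = val g p) : h = g := by
  apply Subtype.ext
  ext p
  · exact H p
  · rw [h.2 p, g.2 p]
    congr 2
    exact H p

/-- The element of `V` with given values. -/
def mkV (q : X →L[𝕜] W) (f : ℕ × ℕ → X) (C : ℝ) (h1 : ∀ p, ‖f p‖ ≤ C)
    (h2 : ∀ p : ℕ × ℕ, 4 ^ p.1 * ‖q (f p)‖ ≤ C) : VT q :=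
  ⟨BoundedContinuousFunction.ofNormedAddCommGroupDiscrete
    (fun p => (f p, (4 ^ p.1 : 𝕜) • q (f p))) C (fun p => by
      rw [Prod.norm_def]
      refine max_le (h1 p) ?_
      rw [norm_smul, norm_four]
      exact h2 p), fun p => rfl⟩

theorem val_mkV (f : ℕ × ℕ → X) (C : ℝ) (h1 : ∀ p, ‖f p‖ ≤ C)
    (h2 : ∀ p : ℕ × ℕ, 4 ^ p.1 * ‖q (f p)‖ ≤ C) (p : ℕ × ℕ) : val (mkV q f C h1 h2) p = f p := rfl

/-- The evaluation as a linear map. -/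
def valLin (q : X →L[𝕜] W) (p : ℕ × ℕ) : VT q →ₗ[𝕜] X where
  toFun := fun h : VT q => val h p
  map_add' := fun _ _ => rfl
  map_smul' := fun _ _ => rfl

/-- The evaluation as a continuous linear map. -/
def valL (q : X →L[𝕜] W) (p : ℕ × ℕ) : VT q →L[𝕜] X :=
  (valLin q p).mkContinuous 1 (fun h : VT q => by
    rw [one_mul]; exact val_le h p)

theorem valL_apply (p : ℕ × ℕ) (h : VT q) : valL q p h = val h p := rfl

/-- Weighted composition on `V`. -/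
def wvLin (q : X →L[𝕜] W) (c : ℕ × ℕ → 𝕜) (φ : ℕ × ℕ → ℕ × ℕ) (H1 : ∀ p, ‖c p‖ ≤ 2)
    (H2 : ∀ p : ℕ × ℕ, 4 ^ p.1 * ‖c p‖ ≤ 2 * 4 ^ (φ p).1) : VT q →ₗ[𝕜] VT q where
  toFun := fun h : VT q => mkV q (fun p => c p • val h (φ p)) (2 * ‖h‖)
        (fun p => by
          rw [norm_smul]
          exact mul_le_mul (H1 p) (val_le h _) (norm_nonneg _) zero_le_two)
        (fun p => by
          rw [map_smul, norm_smul, ← mul_assoc]
          calc 4 ^ p.1 * ‖c p‖ * ‖q (val h (φ p))‖ ≤ 2 * 4 ^ (φ p).1 * ‖q (val h (φ p))‖ :=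
                mul_le_mul_of_nonneg_right (H2 p) (norm_nonneg _)
            _ = 2 * (4 ^ (φ p).1 * ‖q (val h (φ p))‖) := by ring
            _ ≤ 2 * ‖h‖ := mul_le_mul_of_nonneg_left (qval_le h _) zero_le_two)
  map_add' := fun (h g : VT q) => val_ext fun p =>
    (smul_add (c p) (val h (φ p)) (val g (φ p)) :)
  map_smul' := fun (k : 𝕜) (h : VT q) => val_ext fun p =>
    (smul_comm (c p) k (val h (φ p)) :)

/-- Weighted composition on `V`. -/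
def wv (q : X →L[𝕜] W) (c : ℕ × ℕ → 𝕜) (φ : ℕ × ℕ → ℕ × ℕ) (H1 : ∀ p, ‖c p‖ ≤ 2)
    (H2 : ∀ p : ℕ × ℕ, 4 ^ p.1 * ‖c p‖ ≤ 2 * 4 ^ (φ p).1) : VT q →L[𝕜] VT q :=
  (wvLin q c φ H1 H2).mkContinuous 2 (fun h : VT q => by
    apply norm_le_of
    · positivity
    · intro p
      show ‖c p • val h (φ p)‖ ≤ 2 * ‖h‖
      rw [norm_smul]
      exact mul_le_mul (H1 p) (val_le h _) (norm_nonneg _) zero_le_two
    · intro p
      show 4 ^ p.1 * ‖q (c p • val h (φ p))‖ ≤ 2 * ‖h‖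
      rw [map_smul, norm_smul, ← mul_assoc]
      calc 4 ^ p.1 * ‖c p‖ * ‖q (val h (φ p))‖ ≤ 2 * 4 ^ (φ p).1 * ‖q (val h (φ p))‖ :=
            mul_le_mul_of_nonneg_right (H2 p) (norm_nonneg _)
        _ = 2 * (4 ^ (φ p).1 * ‖q (val h (φ p))‖) := by ring
        _ ≤ 2 * ‖h‖ := mul_le_mul_of_nonneg_left (qval_le h _) zero_le_two)

theorem wv_apply (c : ℕ × ℕ → 𝕜) (φ : ℕ × ℕ → ℕ × ℕ) (H1 : ∀ p, ‖c p‖ ≤ 2)
    (H2 : ∀ p : ℕ × ℕ, 4 ^ p.1 * ‖c p‖ ≤ 2 * 4 ^ (φ p).1) (h : VT q) (p : ℕ × ℕ) :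
    val (wv q c φ H1 H2 h) p = c p • val h (φ p) := rfl

theorem wv_norm (c : ℕ × ℕ → 𝕜) (φ : ℕ × ℕ → ℕ × ℕ) (H1 : ∀ p, ‖c p‖ ≤ 2)
    (H2 : ∀ p : ℕ × ℕ, 4 ^ p.1 * ‖c p‖ ≤ 2 * 4 ^ (φ p).1) : ‖wv q c φ H1 H2‖ ≤ 2 :=
  LinearMap.mkContinuous_norm_le _ zero_le_two _

/-- The weights of `S n`. -/
def cc (𝕜 : Type) [RCLike 𝕜] (n : ℤ) (p : ℕ × ℕ) : 𝕜 :=
  if 0 < n ∧ p.1 + 1 = n.toNat ∧ p.2 = 0 then 2 else 2⁻¹

/-- The bijections of `S n`. -/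
def ph (n : ℤ) (p : ℕ × ℕ) : ℕ × ℕ :=
  if 0 < n then
    (if p.1 = n.toNat then (p.1, p.2 + 1)
      else if p.1 + 1 = n.toNat then (if p.2 = 0 then (n.toNat, 0) else (p.1, p.2 - 1)) else p)
  else p

/-- The weights of the inverse. -/
def cc' (𝕜 : Type) [RCLike 𝕜] (n : ℤ) (p : ℕ × ℕ) : 𝕜 :=
  if 0 < n ∧ p.1 = n.toNat ∧ p.2 = 0 then 2⁻¹ else 2

/-- The inverse bijections. -/
def ph' (n : ℤ) (p : ℕ × ℕ) : ℕ × ℕ :=
  if 0 < n then
    (if p.1 = n.toNat then (if p.2 = 0 then (n.toNat - 1, 0) else (p.1, p.2 - 1))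
      else if p.1 + 1 = n.toNat then (p.1, p.2 + 1) else p)
  else p

theorem norm_half : ‖(2⁻¹ : 𝕜)‖ = 2⁻¹ := by rw [norm_inv, RCLike.norm_ofNat]

theorem cc_norm (n : ℤ) (p : ℕ × ℕ) : ‖cc 𝕜 n p‖ ≤ 2 := by
  unfold cc
  split
  · rw [RCLike.norm_ofNat]
  · rw [norm_half]; norm_num

theorem cc'_norm (n : ℤ) (p : ℕ × ℕ) : ‖cc' 𝕜 n p‖ ≤ 2 := by
  unfold cc'
  split
  · rw [norm_half]; norm_num
  · rw [RCLike.norm_ofNat]

/-- Away from the special point. -/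
theorem ph_reg (n : ℤ) (p : ℕ × ℕ) (h : ¬ (0 < n ∧ p.1 + 1 = n.toNat ∧ p.2 = 0)) :
    cc 𝕜 n p = 2⁻¹ ∧ (ph n p).1 = p.1 ∧ (0 < n → ph n p ≠ (n.toNat, 0)) := by
  obtain ⟨k, j⟩ := p
  refine ⟨if_neg h, ?_, ?_⟩
  · unfold ph
    simp only at h ⊢
    split_ifs with h1 h2 h3 h4
    · rfl
    · exact absurd ⟨h1, h3, h4⟩ h
    · rfl
    · rfl
    · rfl
  · intro h1
    unfold ph
    simp only at h ⊢
    rw [if_pos h1]
    split_ifs with h2 h3 h4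
    · intro h5
      have := congrArg Prod.snd h5
      simp at this
    · exact absurd ⟨h1, h3, h4⟩ h
    · intro h5
      exact h2 (congrArg Prod.fst h5)
    · intro h5
      exact h2 (congrArg Prod.fst h5)

theorem ph'_reg (n : ℤ) (p : ℕ × ℕ) (h : ¬ (0 < n ∧ p.1 = n.toNat ∧ p.2 = 0)) :
    cc' 𝕜 n p = 2 ∧ (ph' n p).1 = p.1 ∧ (0 < n → ph' n p ≠ (n.toNat - 1, 0)) := by
  obtain ⟨k, j⟩ := p
  refine ⟨if_neg h, ?_, ?_⟩
  · unfold ph'
    simp only at h ⊢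
    split_ifs with h1 h2 h3 h4
    · exact absurd ⟨h1, h2, h3⟩ h
    · rfl
    · rfl
    · rfl
    · rfl
  · intro h1
    unfold ph'
    simp only at h ⊢
    rw [if_pos h1]
    split_ifs with h2 h3 h4
    · exact absurd ⟨h1, h2, h3⟩ h
    · intro h5
      have h6 := congrArg Prod.fst h5
      simp only at h6
      omega
    · intro h5
      have := congrArg Prod.snd h5
      simp at this
    · intro h5
      have h6 := congrArg Prod.fst h5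
      simp only at h6
      omega

theorem ph_special (n : ℤ) (hn : 0 < n) (k : ℕ) (hk : k + 1 = n.toNat) :
    cc 𝕜 n (k, 0) = 2 ∧ ph n (k, 0) = (n.toNat, 0) := by
  refine ⟨if_pos ⟨hn, hk, rfl⟩, ?_⟩
  show (if 0 < n then
    (if k = n.toNat then (k, 0 + 1)
      else if k + 1 = n.toNat then (if (0 : ℕ) = 0 then (n.toNat, 0) else (k, 0 - 1)) else (k, 0))
    else (k, 0)) = (n.toNat, 0)
  rw [if_pos hn, if_neg (by omega), if_pos hk, if_pos rfl]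

theorem ph'_special (n : ℤ) (hn : 0 < n) :
    cc' 𝕜 n (n.toNat, 0) = 2⁻¹ ∧ ph' n (n.toNat, 0) = (n.toNat - 1, 0) := by
  refine ⟨if_pos ⟨hn, rfl, rfl⟩, ?_⟩
  show (if 0 < n then
    (if n.toNat = n.toNat then (if (0 : ℕ) = 0 then (n.toNat - 1, 0) else (n.toNat, 0 - 1))
      else if n.toNat + 1 = n.toNat then (n.toNat, 0 + 1) else (n.toNat, 0))
    else (n.toNat, 0)) = (n.toNat - 1, 0)
  rw [if_pos hn, if_pos rfl, if_pos rfl]

theorem cc_four (n : ℤ) (p : ℕ × ℕ) : 4 ^ p.1 * ‖cc 𝕜 n p‖ ≤ 2 * 4 ^ (ph n p).1 := by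
  by_cases h : 0 < n ∧ p.1 + 1 = n.toNat ∧ p.2 = 0
  · obtain ⟨k, j⟩ := p
    obtain ⟨h1, h2, h3⟩ := h
    simp only at h2 h3
    subst h3
    obtain ⟨e1, e2⟩ := ph_special (𝕜 := 𝕜) n h1 k h2
    rw [e1, e2, RCLike.norm_ofNat, ← h2]
    show (4 : ℝ) ^ k * 2 ≤ 2 * 4 ^ (k + 1)
    rw [pow_succ]
    nlinarith [pow_pos (show (0 : ℝ) < 4 by norm_num) k]
  · obtain ⟨e1, e2, _⟩ := ph_reg (𝕜 := 𝕜) n p h
    rw [e1, e2, norm_half]
    nlinarith [pow_pos (show (0 : ℝ) < 4 by norm_num) p.1]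

theorem cc'_four (n : ℤ) (p : ℕ × ℕ) : 4 ^ p.1 * ‖cc' 𝕜 n p‖ ≤ 2 * 4 ^ (ph' n p).1 := by
  by_cases h : 0 < n ∧ p.1 = n.toNat ∧ p.2 = 0
  · obtain ⟨k, j⟩ := p
    obtain ⟨h1, h2, h3⟩ := h
    simp only at h2 h3
    subst h3
    subst h2
    obtain ⟨e1, e2⟩ := ph'_special (𝕜 := 𝕜) n h1
    rw [e1, e2, norm_half]
    show (4 : ℝ) ^ n.toNat * 2⁻¹ ≤ 2 * 4 ^ (n.toNat - 1)
    obtain ⟨m, hm⟩ : ∃ m, n.toNat = m + 1 := ⟨n.toNat - 1, by omega⟩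
    rw [hm, pow_succ, Nat.add_sub_cancel]
    nlinarith [pow_pos (show (0 : ℝ) < 4 by norm_num) m]
  · obtain ⟨e1, e2, _⟩ := ph'_reg (𝕜 := 𝕜) n p h
    rw [e1, e2, RCLike.norm_ofNat]
    exact le_of_eq (mul_comm _ _)

theorem inv1 (n : ℤ) (p : ℕ × ℕ) : ph' n (ph n p) = p ∧ cc 𝕜 n p * cc' 𝕜 n (ph n p) = 1 := by
  have h20 : (2 : 𝕜) ≠ 0 := two_ne_zero
  by_cases h : 0 < n ∧ p.1 + 1 = n.toNat ∧ p.2 = 0
  · obtain ⟨k, j⟩ := p
    obtain ⟨h1, h2, h3⟩ := h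
    simp only at h2 h3
    subst h3
    obtain ⟨e1, e2⟩ := ph_special (𝕜 := 𝕜) n h1 k h2
    obtain ⟨e3, e4⟩ := ph'_special (𝕜 := 𝕜) n h1
    rw [e1, e2, e3, e4]
    refine ⟨?_, mul_inv_cancel₀ h20⟩
    rw [← h2, Nat.add_sub_cancel]
  · obtain ⟨e1, e2, e3⟩ := ph_reg (𝕜 := 𝕜) n p h
    have h5 : ¬ (0 < n ∧ (ph n p).1 = n.toNat ∧ (ph n p).2 = 0) := by
      rintro ⟨a1, a2, a3⟩
      exact e3 a1 (Prod.ext a2 a3)
    obtain ⟨e4, _, _⟩ := ph'_reg (𝕜 := 𝕜) n (ph n p) h5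
    rw [e1, e4]
    refine ⟨?_, inv_mul_cancel₀ h20⟩
    obtain ⟨k, j⟩ := p
    unfold ph ph'
    simp only at h ⊢
    by_cases hn : 0 < n
    · rw [if_pos hn, if_pos hn]
      by_cases hk : k = n.toNat
      · rw [if_pos hk]
        simp only
        rw [if_pos hk, if_neg (by omega)]
        rfl
      · rw [if_neg hk]
        by_cases hk1 : k + 1 = n.toNat
        · rw [if_pos hk1]
          have hj : j ≠ 0 := fun hj => h ⟨hn, hk1, hj⟩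
          rw [if_neg hj]
          simp only
          rw [if_neg hk, if_pos hk1, Nat.sub_add_cancel (Nat.pos_of_ne_zero hj)]
        · rw [if_neg hk1]
          simp only
          rw [if_neg hk, if_neg hk1]
    · rw [if_neg hn, if_neg hn]

theorem inv2 (n : ℤ) (p : ℕ × ℕ) : ph n (ph' n p) = p ∧ cc' 𝕜 n p * cc 𝕜 n (ph' n p) = 1 := by
  have h20 : (2 : 𝕜) ≠ 0 := two_ne_zero
  by_cases h : 0 < n ∧ p.1 = n.toNat ∧ p.2 = 0
  · obtain ⟨k, j⟩ := p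
    obtain ⟨h1, h2, h3⟩ := h
    simp only at h2 h3
    subst h3
    subst h2
    obtain ⟨e3, e4⟩ := ph'_special (𝕜 := 𝕜) n h1
    obtain ⟨e1, e2⟩ := ph_special (𝕜 := 𝕜) n h1 (n.toNat - 1) (by omega)
    rw [e3, e4, e1, e2]
    exact ⟨rfl, inv_mul_cancel₀ h20⟩
  · obtain ⟨e1, e2, e3⟩ := ph'_reg (𝕜 := 𝕜) n p h
    have h5 : ¬ (0 < n ∧ (ph' n p).1 + 1 = n.toNat ∧ (ph' n p).2 = 0) := by
      rintro ⟨a1, a2, a3⟩
      exact e3 a1 (Prod.ext (by show (ph' n p).1 = n.toNat - 1; omega) a3)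
    obtain ⟨e4, _, _⟩ := ph_reg (𝕜 := 𝕜) n (ph' n p) h5
    rw [e1, e4]
    refine ⟨?_, mul_inv_cancel₀ h20⟩
    obtain ⟨k, j⟩ := p
    unfold ph ph'
    simp only at h ⊢
    by_cases hn : 0 < n
    · rw [if_pos hn, if_pos hn]
      by_cases hk : k = n.toNat
      · have hj : j ≠ 0 := fun hj => h ⟨hn, hk, hj⟩
        rw [if_pos hk, if_neg hj]
        simp only
        rw [if_pos hk, Nat.sub_add_cancel (Nat.pos_of_ne_zero hj)]
      · rw [if_neg hk]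
        by_cases hk1 : k + 1 = n.toNat
        · rw [if_pos hk1]
          simp only
          rw [if_neg hk, if_pos hk1, if_neg (Nat.succ_ne_zero j)]
          rfl
        · rw [if_neg hk1]
          simp only
          rw [if_neg hk, if_neg hk1]
    · rw [if_neg hn, if_neg hn]

/-- The weights `S n` of the shift operator. -/
def Sw (q : X →L[𝕜] W) (n : ℤ) : VT q ≃L[𝕜] VT q :=
  ContinuousLinearEquiv.equivOfInverse
    (wv q (cc 𝕜 n) (ph n) (cc_norm n) (cc_four n))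
    (wv q (cc' 𝕜 n) (ph' n) (cc'_norm n) (cc'_four n))
    (fun h => val_ext fun p => by
      rw [wv_apply, wv_apply, smul_smul, (inv2 (𝕜 := 𝕜) n p).2, one_smul, (inv2 (𝕜 := 𝕜) n p).1])
    (fun h => val_ext fun p => by
      rw [wv_apply, wv_apply, smul_smul, (inv1 (𝕜 := 𝕜) n p).2, one_smul, (inv1 (𝕜 := 𝕜) n p).1])

theorem Sw_val (n : ℤ) (h : VT q) (p : ℕ × ℕ) : val (Sw q n h) p = cc 𝕜 n p • val h (ph n p) := rfl

theorem Sw_symm_val (n : ℤ) (h : VT q) (p : ℕ × ℕ) :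
    val ((Sw q n).symm h) p = cc' 𝕜 n p • val h (ph' n p) := rfl

theorem Sw_norm (n : ℤ) : ‖(Sw q n : VT q →L[𝕜] VT q)‖ ≤ 2 :=
  wv_norm (q := q) (cc 𝕜 n) (ph n) (cc_norm n) (cc_four n)

theorem Sw_symm_norm (n : ℤ) : ‖((Sw q n).symm : VT q →L[𝕜] VT q)‖ ≤ 2 :=
  wv_norm (q := q) (cc' 𝕜 n) (ph' n) (cc'_norm n) (cc'_four n)

theorem Sw_nonpos (n : ℤ) (hn : n ≤ 0) (h : VT q) : Sw q n h = (2⁻¹ : 𝕜) • h := by
  apply val_ext
  intro p
  rw [Sw_val, val_smul]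
  have h1 : ¬ (0 < n) := not_lt.2 hn
  unfold cc ph
  rw [if_neg (fun h => h1 h.1), if_neg h1]

end

end Pool.Agent.Helper368_SH
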