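import Mathlib
import Pool.Agent.Helper368_SH.VSpace

set_option autoImplicit false

/-!
The shadowing property of the shift operator with the weights `Sw`, and the absence of right
inverses.
-/

open Filter Set
open scoped ENNReal

namespace Pool.Agent.Helper368_SH

noncomputable section

variable {𝕜 : Type} [RCLike 𝕜] {X W : Type} [NormedAddCommGroup X] [NormedSpace 𝕜 X]
  [NormedAddCommGroup W] [NormedSpace 𝕜 W] {q : X →L[𝕜] W}

/-- Downward iterates of an element at the position `n`. -/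
def dn (n : ℤ) (x : VT q) : ℕ → VT q
  | 0 => x
  | i + 1 => Sw q (n - i) (dn n x i)

/-- Upward iterates of an element at the position `n`. -/
def up (n : ℤ) (x : VT q) : ℕ → VT q
  | 0 => x
  | i + 1 => (Sw q (n + i + 1)).symm (up n x i)

theorem up_zero (n : ℤ) (i : ℕ) : up n (0 : VT q) i = 0 := by
  induction i with
  | zero => rfl
  | succ i ih =>
    show (Sw q (n + i + 1)).symm (up n 0 i) = 0
    rw [ih, map_zero]

theorem dn_nonpos (n : ℤ) (hn : n ≤ 0) (x : VT q) (i : ℕ) : ‖dn n x i‖ ≤ (1 / 2) ^ i * ‖x‖ := by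
  induction i with
  | zero => rw [pow_zero, one_mul]; exact le_rfl
  | succ i ih =>
    show ‖Sw q (n - i) (dn n x i)‖ ≤ _
    rw [Sw_nonpos _ (by omega), norm_smul, norm_half, pow_succ]
    linarith

/-- A function supported at a single point. -/
def sgf (k : ℕ) (s : X) (p : ℕ × ℕ) : X := if p = (k, 0) then s else 0

theorem sgf_norm (k : ℕ) (s : X) (p : ℕ × ℕ) : ‖sgf k s p‖ ≤ max ‖s‖ (4 ^ k * ‖q s‖) := by
  unfold sgf
  split
  · exact le_max_left _ _
  · rw [norm_zero]; exact (norm_nonneg s).trans (le_max_left _ _)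

theorem sgf_qnorm (k : ℕ) (s : X) (p : ℕ × ℕ) :
    4 ^ p.1 * ‖q (sgf k s p)‖ ≤ max ‖s‖ (4 ^ k * ‖q s‖) := by
  unfold sgf
  split
  · rename_i h
    rw [h]
    exact le_max_right _ _
  · rw [map_zero, norm_zero, mul_zero]; exact (norm_nonneg s).trans (le_max_left _ _)

/-- The element supported at `(k, 0)`. -/
def sg (q : X →L[𝕜] W) (k : ℕ) (s : X) : VT q :=
  mkV q (sgf k s) (max ‖s‖ (4 ^ k * ‖q s‖)) (sgf_norm k s) (sgf_qnorm k s)

theorem sg_val (k : ℕ) (s : X) (p : ℕ × ℕ) : val (sg q k s) p = if p = (k, 0) then s else 0 := rfl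

theorem sg_norm (k : ℕ) (s : X) : ‖sg q k s‖ ≤ max ‖s‖ (4 ^ k * ‖q s‖) :=
  norm_le_of _ _ ((norm_nonneg s).trans (le_max_left _ _)) (sgf_norm k s) (sgf_qnorm k s)

/-- Upward iterates of a singly supported element. -/
theorem up_sg (m : ℕ) (s : X) (i : ℕ) :
    up (m : ℤ) (sg q m s) i = sg q (m + i) ((2⁻¹ : 𝕜) ^ i • s) := by
  induction i with
  | zero =>
    show sg q m s = sg q (m + 0) ((2⁻¹ : 𝕜) ^ 0 • s)
    rw [pow_zero, one_smul]
    rfl
  | succ i ih =>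
    show (Sw q ((m : ℤ) + i + 1)).symm (up (m : ℤ) (sg q m s) i) = _
    rw [ih]
    apply val_ext
    intro p
    rw [Sw_symm_val, sg_val, sg_val]
    have hn : 0 < (m : ℤ) + i + 1 := by omega
    have hnt : ((m : ℤ) + i + 1).toNat = m + i + 1 := by omega
    by_cases hp : p = (m + i + 1, 0)
    · subst hp
      obtain ⟨e1, e2⟩ := ph'_special (𝕜 := 𝕜) ((m : ℤ) + i + 1) hn
      rw [hnt] at e1 e2
      rw [e1, e2, if_pos (show (m + i + 1 - 1, 0) = (m + i, 0) from rfl),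
        if_pos (show (m + i + 1, 0) = (m + (i + 1), 0) from rfl), smul_smul, pow_succ, mul_comm]
    · have h1 : ¬ (0 < (m : ℤ) + i + 1 ∧ p.1 = ((m : ℤ) + i + 1).toNat ∧ p.2 = 0) := by
        rintro ⟨_, a2, a3⟩
        rw [hnt] at a2
        exact hp (Prod.ext a2 a3)
      obtain ⟨_, _, e3⟩ := ph'_reg (𝕜 := 𝕜) ((m : ℤ) + i + 1) p h1
      have e4 := e3 hn
      rw [hnt, Nat.add_sub_cancel] at e4
      rw [if_neg e4, smul_zero, if_neg (show ¬ p = (m + (i + 1), 0) from hp)]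

/-- Downward iterates of an element. -/
theorem dn_inv (m : ℕ) (v : VT q) (t : X) (N : ℝ) (hvm : val v (m, 0) = t)
    (h1 : ∀ p, p ≠ (m, 0) → ‖val v p‖ ≤ N ∧ 4 ^ p.1 * ‖q (val v p)‖ ≤ N) (i : ℕ) (hi : i ≤ m) :
    val (dn (m : ℤ) v i) (m - i, 0) = (2 : 𝕜) ^ i • t ∧
    ∀ p, p ≠ (m - i, 0) → ‖val (dn (m : ℤ) v i) p‖ ≤ (1 / 2) ^ i * N ∧
      4 ^ p.1 * ‖q (val (dn (m : ℤ) v i) p)‖ ≤ (1 / 2) ^ i * N := by
  induction i with
  | zero =>
    refine ⟨?_, ?_⟩
    · rw [pow_zero, one_smul]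
      exact hvm
    · intro p hp
      rw [pow_zero, one_mul]
      exact h1 p hp
  | succ i ih =>
    obtain ⟨ih1, ih2⟩ := ih (by omega)
    have hn : 0 < (m : ℤ) - i := by omega
    have hnt : ((m : ℤ) - i).toNat = m - i := by omega
    have hd : dn (m : ℤ) v (i + 1) = Sw q ((m : ℤ) - i) (dn (m : ℤ) v i) := rfl
    constructor
    · rw [hd, Sw_val]
      obtain ⟨e1, e2⟩ := ph_special (𝕜 := 𝕜) ((m : ℤ) - i) hn (m - (i + 1)) (by omega)
      rw [e1, e2, hnt, ih1, smul_smul, pow_succ, mul_comm]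
    · intro p hp
      have h2 : ¬ (0 < (m : ℤ) - i ∧ p.1 + 1 = ((m : ℤ) - i).toNat ∧ p.2 = 0) := by
        rintro ⟨_, a2, a3⟩
        rw [hnt] at a2
        exact hp (Prod.ext (by show p.1 = m - (i + 1); omega) a3)
      obtain ⟨e1, e2, e3⟩ := ph_reg (𝕜 := 𝕜) ((m : ℤ) - i) p h2
      have e4 := e3 hn
      rw [hnt] at e4
      obtain ⟨b1, b2⟩ := ih2 _ e4
      rw [hd, Sw_val, e1]
      rw [e2] at b2
      constructor
      · rw [norm_smul, norm_half, pow_succ]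
        linarith
      · rw [map_smul, norm_smul, norm_half, pow_succ]
        linarith

/-- Continuing downward. -/
theorem dn_add (m : ℕ) (v : VT q) (l : ℕ) :
    ‖dn (m : ℤ) v (m + l)‖ ≤ (1 / 2) ^ l * ‖dn (m : ℤ) v m‖ := by
  induction l with
  | zero => rw [pow_zero, one_mul]; exact le_rfl
  | succ l ih =>
    have hd : dn (m : ℤ) v (m + (l + 1)) = Sw q ((m : ℤ) - ((m + l : ℕ) : ℤ)) (dn (m : ℤ) v (m + l)) :=
      rfl
    rw [hd, Sw_nonpos _ (by push_cast; omega), norm_smul, norm_half, pow_succ]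
    linarith

/-- The decomposition of the elements of `V`. -/
theorem decomp (K0 : ℝ) (hK0 : 0 < K0) (hlift : ∀ w : W, ∃ x : X, q x = w ∧ ‖x‖ ≤ K0 * ‖w‖)
    (n : ℤ) (x : VT q) : ∃ v u : VT q, x = v + u ∧
      (∀ i, ‖dn n v i‖ ≤ (K0 + 1) * (1 / 2) ^ i * ‖x‖) ∧
      (∀ i, ‖up n u i‖ ≤ (K0 + 1) * (1 / 2) ^ i * ‖x‖) := by
  have hx0 := norm_nonneg x
  rcases le_or_gt n 0 with hn | hn
  · refine ⟨x, 0, (add_zero x).symm, fun i => ?_, fun i => ?_⟩
    · refine (dn_nonpos n hn x i).trans ?_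
      have h1 : 0 ≤ (1 / 2 : ℝ) ^ i * ‖x‖ := by positivity
      nlinarith
    · rw [up_zero, norm_zero]; positivity
  · obtain ⟨m, rfl⟩ : ∃ m : ℕ, n = m := ⟨n.toNat, by omega⟩
    set t : X := val x (m, 0) with ht
    obtain ⟨t', ht1, ht2⟩ := hlift (q t)
    have hqt : 4 ^ m * ‖q t‖ ≤ ‖x‖ := qval_le x (m, 0)
    have htn : ‖t‖ ≤ ‖x‖ := val_le x (m, 0)
    have h4 : (1 : ℝ) ≤ 4 ^ m := one_le_pow₀ (by norm_num)
    have hqt1 : ‖q t‖ ≤ ‖x‖ := by nlinarith [norm_nonneg (q t)]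
    have hs0 : q (t - t') = 0 := by rw [map_sub, ht1, sub_self]
    refine ⟨x - sg q m (t - t'), sg q m (t - t'), by abel, ?_, ?_⟩
    · have hv1 : val (x - sg q m (t - t')) (m, 0) = t' := by
        rw [val_sub, sg_val, if_pos rfl, ← ht]
        abel
      have hv2 : ∀ p, p ≠ (m, 0) → ‖val (x - sg q m (t - t')) p‖ ≤ ‖x‖ ∧
          4 ^ p.1 * ‖q (val (x - sg q m (t - t')) p)‖ ≤ ‖x‖ := by
        intro p hp
        have h5 : val (x - sg q m (t - t')) p = val x p := by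
          rw [val_sub, sg_val, if_neg hp, sub_zero]
        rw [h5]
        exact ⟨val_le x p, qval_le x p⟩
      have hle : ∀ i ≤ m, ‖dn (m : ℤ) (x - sg q m (t - t')) i‖ ≤ (K0 + 1) * (1 / 2) ^ i * ‖x‖ := by
        intro i hi
        obtain ⟨a1, a2⟩ := dn_inv (𝕜 := 𝕜) m _ t' ‖x‖ hv1 hv2 i hi
        have hpi : (0 : ℝ) ≤ (1 / 2) ^ i * ‖x‖ := by positivity
        have hbig : (1 / 2) ^ i * ‖x‖ ≤ (K0 + 1) * (1 / 2) ^ i * ‖x‖ := by nlinarith
        have hpw : (2 : ℝ) ^ i * 4 ^ (m - i) = (1 / 2) ^ i * 4 ^ m := by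
          obtain ⟨r, rfl⟩ := Nat.exists_eq_add_of_le hi
          rw [Nat.add_sub_cancel_left, pow_add, one_div, inv_pow]
          have h6 : (4 : ℝ) ^ i = 2 ^ i * 2 ^ i := by rw [← mul_pow]; norm_num
          rw [h6]
          field_simp
        apply norm_le_of
        · positivity
        · intro p
          by_cases hp : p = (m - i, 0)
          · rw [hp, a1, norm_smul, norm_pow, RCLike.norm_ofNat]
            have h7 : (2 : ℝ) ^ i * ‖q t‖ ≤ (1 / 2) ^ i * ‖x‖ := by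
              have h8 : (1 : ℝ) ≤ 4 ^ (m - i) := one_le_pow₀ (by norm_num)
              calc (2 : ℝ) ^ i * ‖q t‖ ≤ 2 ^ i * 4 ^ (m - i) * ‖q t‖ := by
                    apply mul_le_mul_of_nonneg_right _ (norm_nonneg _)
                    exact le_mul_of_one_le_right (by positivity) h8
                _ = (1 / 2) ^ i * (4 ^ m * ‖q t‖) := by rw [hpw]; ring
                _ ≤ (1 / 2) ^ i * ‖x‖ := mul_le_mul_of_nonneg_left hqt (by positivity)
            calc (2 : ℝ) ^ i * ‖t'‖ ≤ 2 ^ i * (K0 * ‖q t‖) :=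
                  mul_le_mul_of_nonneg_left ht2 (by positivity)
              _ = K0 * (2 ^ i * ‖q t‖) := by ring
              _ ≤ K0 * ((1 / 2) ^ i * ‖x‖) := mul_le_mul_of_nonneg_left h7 hK0.le
              _ ≤ (K0 + 1) * (1 / 2) ^ i * ‖x‖ := by nlinarith
          · exact (a2 p hp).1.trans hbig
        · intro p
          by_cases hp : p = (m - i, 0)
          · rw [hp, a1, map_smul, norm_smul, norm_pow, RCLike.norm_ofNat, ht1]
            refine le_trans (le_of_eq ?_) ((mul_le_mul_of_nonneg_left hqt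
              (by positivity : (0 : ℝ) ≤ (1 / 2) ^ i)).trans hbig)
            show (4 : ℝ) ^ (m - i) * (2 ^ i * ‖q t‖) = (1 / 2) ^ i * (4 ^ m * ‖q t‖)
            calc (4 : ℝ) ^ (m - i) * (2 ^ i * ‖q t‖) = (2 ^ i * 4 ^ (m - i)) * ‖q t‖ := by ring
              _ = (1 / 2) ^ i * (4 ^ m * ‖q t‖) := by rw [hpw]; ring
          · exact (a2 p hp).2.trans hbig
      intro i
      rcases le_or_gt i m with hi | hi
      · exact hle i hi
      · obtain ⟨l, rfl⟩ := Nat.exists_eq_add_of_le hi.le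
        refine (dn_add m _ l).trans ?_
        have h9 := mul_le_mul_of_nonneg_left (hle m le_rfl) (by positivity : (0 : ℝ) ≤ (1 / 2) ^ l)
        refine h9.trans (le_of_eq ?_)
        rw [pow_add]; ring
    · intro i
      rw [up_sg]
      refine (sg_norm _ _).trans ?_
      rw [map_smul, hs0, smul_zero, norm_zero, mul_zero, norm_smul, norm_pow, norm_half]
      have h10 : ‖t - t'‖ ≤ (K0 + 1) * ‖x‖ := by
        refine (norm_sub_le _ _).trans ?_
        nlinarith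
      refine max_le ?_ (by positivity)
      rw [one_div]
      calc (2⁻¹ : ℝ) ^ i * ‖t - t'‖ ≤ 2⁻¹ ^ i * ((K0 + 1) * ‖x‖) :=
            mul_le_mul_of_nonneg_left h10 (by positivity)
        _ = (K0 + 1) * 2⁻¹ ^ i * ‖x‖ := by ring

variable {p : ℝ≥0∞} [Fact (1 ≤ p)]

/-- The shift operator. -/
def sig (q : X →L[𝕜] W) (p : ℝ≥0∞) [Fact (1 ≤ p)] : Lp (VT q) p ≃L[𝕜] Lp (VT q) p :=
  shiftOp p (Sw q) 2 zero_le_two Sw_norm Sw_symm_norm

theorem sig_apply (x : Lp (VT q) p) (n : ℤ) : sig q p x n = Sw q (n + 1) (x (n + 1)) := rfl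

theorem sig_symm_apply (x : Lp (VT q) p) (n : ℤ) :
    (sig q p).symm x n = (Sw q n).symm (x (n - 1)) :=
  shiftOp_symm_apply _ _ _ _ _ _ _

theorem sig_iter (x : Lp (VT q) p) (i : ℕ) (n : ℤ) :
    ((sig q p)^[i] x) n = dn (n + i) (x (n + i)) i := by
  induction i generalizing n with
  | zero =>
    show x n = x (n + ((0 : ℕ) : ℤ))
    rw [Nat.cast_zero, add_zero]
  | succ i ih =>
    rw [Function.iterate_succ_apply', sig_apply, ih (n + 1)]
    show _ = Sw q (n + ((i + 1 : ℕ) : ℤ) - i) (dn (n + ((i + 1 : ℕ) : ℤ)) (x (n + ((i + 1 : ℕ) : ℤ))) i)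
    have e1 : n + ((i + 1 : ℕ) : ℤ) - i = n + 1 := by push_cast; ring
    have e2 : n + ((i + 1 : ℕ) : ℤ) = n + 1 + i := by push_cast; ring
    rw [e1, e2]

theorem sig_symm_iter (x : Lp (VT q) p) (i : ℕ) (n : ℤ) :
    ((sig q p).symm^[i] x) n = up (n - i) (x (n - i)) i := by
  induction i generalizing n with
  | zero =>
    show x n = x (n - ((0 : ℕ) : ℤ))
    rw [Nat.cast_zero, sub_zero]
  | succ i ih =>
    rw [Function.iterate_succ_apply', sig_symm_apply, ih (n - 1)]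
    show _ = (Sw q (n - ((i + 1 : ℕ) : ℤ) + i + 1)).symm
      (up (n - ((i + 1 : ℕ) : ℤ)) (x (n - ((i + 1 : ℕ) : ℤ))) i)
    have e1 : n - ((i + 1 : ℕ) : ℤ) + i + 1 = n := by push_cast; ring
    have e2 : n - ((i + 1 : ℕ) : ℤ) = n - 1 - i := by push_cast; ring
    rw [e1, e2]

/-- The decomposition of the elements of `ℓp(ℤ, V)`. -/
theorem decompLp (K0 : ℝ) (hK0 : 0 < K0) (hlift : ∀ w : W, ∃ x : X, q x = w ∧ ‖x‖ ≤ K0 * ‖w‖)
    (F : Lp (VT q) p) : ∃ v u : Lp (VT q) p, F = v + u ∧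
      (∀ i : ℕ, ‖((sig q p)^[i]) v‖ ≤ (K0 + 1) * (1 / 2) ^ i * ‖F‖) ∧
      (∀ i : ℕ, ‖((sig q p).symm^[i]) u‖ ≤ (K0 + 1) * (1 / 2) ^ i * ‖F‖) := by
  choose v u h1 h2 h3 using fun n : ℤ => decomp K0 hK0 hlift n (F n)
  have hv : Memℓp v p := lp_mem F (Equiv.refl ℤ) v (K0 + 1) (by linarith) fun n => by
    have := h2 n 0
    rw [pow_zero, mul_one] at this
    exact this
  have hu : Memℓp u p := lp_mem F (Equiv.refl ℤ) u (K0 + 1) (by linarith) fun n => by
    have := h3 n 0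
    rw [pow_zero, mul_one] at this
    exact this
  refine ⟨⟨v, hv⟩, ⟨u, hu⟩, ?_, ?_, ?_⟩
  · apply lp.ext
    funext n
    exact h1 n
  · intro i
    apply lp_norm F (Equiv.addRight (i : ℤ)) _ _ (by positivity)
    intro n
    rw [sig_iter]
    exact h2 (n + i) i
  · intro i
    apply lp_norm F (Equiv.subRight (i : ℤ)) _ _ (by positivity)
    intro n
    rw [sig_symm_iter]
    exact h3 (n - i) i

end

end Pool.Agent.Helper368_SH
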