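import Mathlib
import Pool.Agent.Helper368_SH.Dyn

set_option autoImplicit false

/-!
A bounded right inverse of `σ - 1` would give a bounded linear right inverse of `q`.
-/

open Filter Set Topology
open scoped ENNReal

namespace Pool.Agent.Helper368_SH

noncomputable section

variable {𝕜 : Type} [RCLike 𝕜] {X W : Type} [NormedAddCommGroup X] [NormedSpace 𝕜 X]
  [NormedAddCommGroup W] [NormedSpace 𝕜 W] {q : X →L[𝕜] W}

theorem section_of_approx [CompleteSpace X] (K0 : ℝ)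
    (hlift : ∀ w : W, ∃ x : X, q x = w ∧ ‖x‖ ≤ K0 * ‖w‖) (A : X →L[𝕜] X)
    (hA : ∀ x, q (A x) = q x) (η : ℝ) (hη : η < 1) (hs : ∀ x, q x = 0 → ‖A x‖ ≤ η * ‖x‖) :
    ∃ s : W →L[𝕜] X, ∀ w, q (s w) = w := by
  set U : Submodule 𝕜 X := LinearMap.ker (q : X →ₗ[𝕜] W) with hU
  have hUm : ∀ x, x ∈ U ↔ q x = 0 := fun x => LinearMap.mem_ker
  have hUc : IsClosed (U : Set X) := q.isClosed_ker
  have : CompleteSpace U := hUc.completeSpace_coe
  let AU : U →L[𝕜] U := (A.comp U.subtypeL).codRestrict U (fun x => by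
    rw [hUm]
    show q (A x) = 0
    rw [hA]
    exact (hUm _).1 x.2)
  have hAU : ∀ x : U, (AU x : X) = A x := fun x => rfl
  obtain ⟨N, hN⟩ := pow_rinv AU 1 η hη (fun x => by
    rw [pow_one]
    exact hs x ((hUm _).1 x.2))
  let P : X →L[𝕜] U := (ContinuousLinearMap.id 𝕜 X - A).codRestrict U (fun x => by
    rw [hUm]
    show q (x - A x) = 0
    rw [map_sub, hA, sub_self])
  have hP : ∀ x, (P x : X) = x - A x := fun x => rfl
  let G : X →L[𝕜] X := ContinuousLinearMap.id 𝕜 X - U.subtypeL.comp (N.comp P)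
  have hG : ∀ x, G x = x - (N (P x) : X) := fun x => rfl
  have hG0 : ∀ x, q x = 0 → G x = 0 := by
    intro x hx
    have h1 : ((N (P x) : U) : X) - A (N (P x)) = x - A x := by
      have h2 := congrArg (fun y : U => (y : X)) (hN (P x))
      exact h2
    have h3 : ((N (P x) : U) : X) - x = A ((N (P x) : X) - x) := by
      rw [map_sub]
      calc ((N (P x) : U) : X) - x = (((N (P x) : U) : X) - A (N (P x))) + A (N (P x)) - x := by abel
        _ = (x - A x) + A (N (P x)) - x := by rw [h1]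
        _ = A (N (P x)) - A x := by abel
    have h4 : q ((N (P x) : X) - x) = 0 := by
      rw [map_sub, hx, sub_zero]
      exact (hUm _).1 (N (P x)).2
    have h5 := hs _ h4
    rw [← h3] at h5
    have h6 : ‖((N (P x) : U) : X) - x‖ = 0 := by
      nlinarith [norm_nonneg (((N (P x) : U) : X) - x)]
    rw [hG, ← neg_sub, norm_eq_zero.1 h6, neg_zero]
  have hqG : ∀ x, q (G x) = q x := by
    intro x
    rw [hG, map_sub]
    have h1 : q ((N (P x) : U) : X) = 0 := (hUm _).1 (N (P x)).2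
    rw [h1, sub_zero]
  choose r hr1 hr2 using hlift
  refine ⟨LinearMap.mkContinuous
    { toFun := fun w => G (r w)
      map_add' := fun a b => ?_
      map_smul' := fun c a => ?_ } (‖G‖ * K0) (fun w => ?_), fun w => ?_⟩
  · have h1 := hG0 (r (a + b) - (r a + r b)) (by
      rw [map_sub, map_add, hr1, hr1, hr1, sub_self])
    rw [map_sub, map_add, sub_eq_zero] at h1
    exact h1
  · have h1 := hG0 (r (c • a) - c • r a) (by
      rw [map_sub, map_smul, hr1, hr1, sub_self])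
    rw [map_sub, map_smul, sub_eq_zero] at h1
    exact h1
  · show ‖G (r w)‖ ≤ ‖G‖ * K0 * ‖w‖
    refine (G.le_opNorm _).trans ?_
    rw [mul_assoc]
    exact mul_le_mul_of_nonneg_left (hr2 w) (norm_nonneg _)
  · show q (G (r w)) = w
    rw [hqG, hr1]

/-- The map `x ↦ sg q k (2 ^ (-k) x)`. -/
def sgLin (q : X →L[𝕜] W) (k : ℕ) : X →ₗ[𝕜] VT q where
  toFun := fun x => sg q k ((2 ^ k : 𝕜)⁻¹ • x)
  map_add' := fun a b => by
    apply val_ext
    intro p
    rw [val_add, sg_val, sg_val, sg_val]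
    split
    · rw [smul_add]
    · rw [add_zero]
  map_smul' := fun c a => by
    apply val_ext
    intro p
    rw [RingHom.id_apply, val_smul, sg_val, sg_val]
    split
    · rw [smul_comm]
    · rw [smul_zero]

theorem norm_two_inv (k : ℕ) : ‖((2 ^ k : 𝕜)⁻¹)‖ = (2 ^ k)⁻¹ := by
  rw [norm_inv, norm_pow, RCLike.norm_ofNat]

theorem two_inv_le (k : ℕ) : ((2 : ℝ) ^ k)⁻¹ ≤ 1 := inv_le_one_of_one_le₀ (one_le_pow₀ one_le_two)

def sgL (q : X →L[𝕜] W) (k : ℕ) : X →L[𝕜] VT q :=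
  (sgLin q k).mkContinuous (1 + 4 ^ k * ‖q‖) (fun x => by
    refine (sg_norm k _).trans ?_
    have h1 : ‖((2 ^ k : 𝕜)⁻¹) • x‖ ≤ ‖x‖ := by
      rw [norm_smul, norm_two_inv]
      exact mul_le_of_le_one_left (norm_nonneg _) (two_inv_le k)
    have h2 : ‖q (((2 ^ k : 𝕜)⁻¹) • x)‖ ≤ ‖q‖ * ‖x‖ :=
      (q.le_opNorm _).trans (mul_le_mul_of_nonneg_left h1 (norm_nonneg _))
    have h4 : (0 : ℝ) ≤ 4 ^ k := by positivity
    refine max_le ?_ ?_
    · have : 0 ≤ 4 ^ k * ‖q‖ * ‖x‖ := by positivity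
      nlinarith
    · have := mul_le_mul_of_nonneg_left h2 h4
      nlinarith [norm_nonneg x])

theorem sgL_apply (k : ℕ) (x : X) : sgL q k x = sg q k ((2 ^ k : 𝕜)⁻¹ • x) := rfl

variable {p : ℝ≥0∞} [Fact (1 ≤ p)]

theorem section_of_rinv [CompleteSpace X] (K0 : ℝ)
    (hlift : ∀ w : W, ∃ x : X, q x = w ∧ ‖x‖ ≤ K0 * ‖w‖)
    (R : Lp (VT q) p →L[𝕜] Lp (VT q) p) (hR : ∀ z, sig q p (R z) - R z = z) :
    ∃ s : W →L[𝕜] X, ∀ w, q (s w) = w := by
  -- the number `k`
  obtain ⟨k, hk⟩ : ∃ k : ℕ, ‖R‖ * (2 ^ k)⁻¹ < 1 := by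
    obtain ⟨k, hk⟩ := pow_unbounded_of_one_lt ‖R‖ one_lt_two
    refine ⟨k, ?_⟩
    rw [← div_eq_mul_inv, div_lt_one (by positivity)]
    exact hk
  let D : X →L[𝕜] Lp (VT q) p :=
    (lp.singleContinuousLinearMap 𝕜 (fun _ : ℤ => VT q) p (k : ℤ)).comp (sgL q k)
  have hD : ∀ x, D x = lp.single p (k : ℤ) (sgL q k x) := fun x => rfl
  have hDn : ∀ x, ‖D x‖ = ‖sgL q k x‖ := fun x => by
    rw [hD]
    exact lp.norm_single (pos_iff_ne_zero.2 one_pos') _ _
  let A : X →L[𝕜] X := -((valL q (0, 0)).comp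
    ((lp.evalCLM 𝕜 (fun _ : ℤ => VT q) p (0 : ℤ)).comp (R.comp D)))
  have hAx : ∀ x, A x = -val ((R (D x)) (0 : ℤ)) (0, 0) := fun x => rfl
  -- the values along the special points
  have hrec : ∀ (x : X) (n : ℕ), (2 : 𝕜) ^ (n + 1) • val ((R (D x)) ((n : ℤ) + 1)) (n + 1, 0) =
      (2 : 𝕜) ^ n • val ((R (D x)) (n : ℤ)) (n, 0) + if n = k then x else 0 := by
    intro x n
    have h1 := congrArg (fun F : Lp (VT q) p => val (F (n : ℤ)) (n, 0)) (hR (D x))
    have h2 : val ((sig q p (R (D x))) (n : ℤ)) (n, 0) =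
        (2 : 𝕜) • val ((R (D x)) ((n : ℤ) + 1)) (n + 1, 0) := by
      rw [sig_apply, Sw_val]
      have hn : 0 < (n : ℤ) + 1 := by omega
      have hnt : ((n : ℤ) + 1).toNat = n + 1 := by omega
      obtain ⟨e1, e2⟩ := ph_special (𝕜 := 𝕜) ((n : ℤ) + 1) hn n (by omega)
      rw [e1, e2, hnt]
    have h3 : val ((D x) (n : ℤ)) (n, 0) = if n = k then ((2 : 𝕜) ^ k)⁻¹ • x else 0 := by
      rw [hD]
      by_cases hnk : n = k
      · subst hnk
        rw [lp.single_apply_self, sgL_apply, sg_val, if_pos rfl, if_pos rfl]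
      · rw [lp.single_apply_ne, if_neg hnk]
        · rfl
        · exact_mod_cast hnk
    have h4 : val ((sig q p (R (D x))) (n : ℤ)) (n, 0) - val ((R (D x)) (n : ℤ)) (n, 0) =
        val ((D x) (n : ℤ)) (n, 0) := h1
    rw [h2, h3, sub_eq_iff_eq_add] at h4
    rw [pow_succ, mul_smul, h4, smul_add, add_comm]
    congr 1
    by_cases hnk : n = k
    · rw [if_pos hnk, if_pos hnk, hnk, smul_smul, mul_inv_cancel₀ (pow_ne_zero _ two_ne_zero),
        one_smul]
    · rw [if_neg hnk, if_neg hnk, smul_zero]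
  have hlow : ∀ (x : X) (n : ℕ), n ≤ k → (2 : 𝕜) ^ n • val ((R (D x)) (n : ℤ)) (n, 0) = -A x := by
    intro x n
    induction n with
    | zero =>
      intro _
      rw [pow_zero, one_smul, hAx, neg_neg]
      rfl
    | succ n ih =>
      intro hn
      have h1 := hrec x n
      rw [if_neg (by omega), add_zero, ih (by omega)] at h1
      exact_mod_cast h1
  have hhigh : ∀ (x : X) (n : ℕ), k < n →
      (2 : 𝕜) ^ n • val ((R (D x)) (n : ℤ)) (n, 0) = x - A x := by
    intro x n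
    induction n with
    | zero => intro hn; omega
    | succ n ih =>
      intro hn
      have h1 := hrec x n
      by_cases hnk : n = k
      · rw [if_pos hnk, hlow x n hnk.le] at h1
        have h2 : (2 : 𝕜) ^ (n + 1) • val ((R (D x)) ((n + 1 : ℕ) : ℤ)) (n + 1, 0) = -A x + x := by
          exact_mod_cast h1
        rw [h2]
        abel
      · rw [if_neg hnk, add_zero, ih (by omega)] at h1
        exact_mod_cast h1
  have hqA : ∀ x, q (A x) = q x := by
    intro x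
    have h1 : ∀ n : ℕ, k < n → ‖q (x - A x)‖ ≤ (1 / 2) ^ n * ‖R (D x)‖ := by
      intro n hn
      rw [← hhigh x n hn, map_smul, norm_smul, norm_pow, RCLike.norm_ofNat]
      have h2 : 4 ^ n * ‖q (val ((R (D x)) (n : ℤ)) (n, 0))‖ ≤ ‖R (D x)‖ :=
        (qval_le ((R (D x)) (n : ℤ)) (n, 0)).trans (lp.norm_apply_le_norm one_pos' _ _)
      have h3 : (4 : ℝ) ^ n = 2 ^ n * 2 ^ n := by rw [← mul_pow]; norm_num
      rw [h3] at h2
      rw [one_div, inv_pow, inv_mul_eq_div, le_div_iff₀ (by positivity)]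
      linarith
    have h2 : Tendsto (fun n : ℕ => (1 / 2 : ℝ) ^ n * ‖R (D x)‖) atTop (𝓝 0) := by
      have := (tendsto_pow_atTop_nhds_zero_of_lt_one (r := (1 / 2 : ℝ)) (by norm_num)
        (by norm_num)).mul_const ‖R (D x)‖
      rwa [zero_mul] at this
    have h3 : ‖q (x - A x)‖ ≤ 0 := by
      apply ge_of_tendsto h2
      filter_upwards [eventually_gt_atTop k] with n hn
      exact h1 n hn
    rw [map_sub] at h3
    have h4 := norm_le_zero_iff.1 h3
    exact (sub_eq_zero.1 h4).symm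
  apply section_of_approx K0 hlift A hqA (‖R‖ * (2 ^ k)⁻¹) hk
  intro x hx
  rw [hAx, norm_neg]
  calc ‖val ((R (D x)) (0 : ℤ)) (0, 0)‖ ≤ ‖(R (D x)) (0 : ℤ)‖ := val_le _ _
    _ ≤ ‖R (D x)‖ := lp.norm_apply_le_norm one_pos' _ _
    _ ≤ ‖R‖ * ‖D x‖ := R.le_opNorm _
    _ ≤ ‖R‖ * ((2 ^ k)⁻¹ * ‖x‖) := by
        apply mul_le_mul_of_nonneg_left _ (norm_nonneg _)
        rw [hDn, sgL_apply]
        refine (sg_norm _ _).trans ?_
        rw [map_smul, hx, smul_zero, norm_zero, mul_zero, norm_smul, norm_two_inv]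
        exact max_le le_rfl (by positivity)
    _ = ‖R‖ * (2 ^ k)⁻¹ * ‖x‖ := by ring

end

end Pool.Agent.Helper368_SH
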