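import Mathlib

set_option autoImplicit false

/-!
A surjective bounded operator between Banach spaces without a bounded linear right inverse: the
quotient map from the bounded sequences to the bounded sequences modulo null sequences.
-/

open Filter Set

namespace Pool.Agent.Helper368_SH

noncomputable section

variable (𝕜 : Type) [RCLike 𝕜]

/-- Bounded scalar sequences. -/
abbrev Li : Type := BoundedContinuousFunction ℕ 𝕜

/-- The sequences of finite support. -/
def finSub : Submodule 𝕜 (Li 𝕜) where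
  carrier := {x | {n | x n ≠ 0}.Finite}
  zero_mem' := by simp
  add_mem' := by
    intro a b ha hb
    refine (Finite.union ha hb).subset ?_
    intro n hn
    by_contra hcon
    simp only [mem_union, mem_ofPred_eq, not_or, not_not] at hcon
    apply hn
    rw [BoundedContinuousFunction.coe_add, Pi.add_apply, hcon.1, hcon.2, add_zero]
  smul_mem' := by
    intro c a ha
    refine Finite.subset ha ?_
    intro n hn hcon
    apply hn
    show c • a n = 0
    rw [hcon, smul_zero]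

/-- Its closure, the null sequences. -/
def c0 : Submodule 𝕜 (Li 𝕜) := (finSub 𝕜).topologicalClosure

instance c0_closed : IsClosed ((c0 𝕜 : Submodule 𝕜 (Li 𝕜)) : Set (Li 𝕜)) :=
  (finSub 𝕜).isClosed_topologicalClosure

/-- The quotient. -/
abbrev Qt : Type := Li 𝕜 ⧸ c0 𝕜

/-- The quotient map. -/
def qm : Li 𝕜 →L[𝕜] Qt 𝕜 := (c0 𝕜).mkQL

theorem qm_surj : Function.Surjective (qm 𝕜) := fun b => by
  obtain ⟨a, ha⟩ := Submodule.Quotient.mk_surjective (c0 𝕜) b
  exact ⟨a, ha⟩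

theorem qm_sub (h u : Li 𝕜) (hu : u ∈ finSub 𝕜) : ‖qm 𝕜 h‖ ≤ ‖h - u‖ := by
  have h1 : qm 𝕜 h = qm 𝕜 (h - u) := by
    rw [map_sub]
    have h2 : qm 𝕜 u = 0 := (Submodule.Quotient.mk_eq_zero (c0 𝕜)).2
      ((finSub 𝕜).le_topologicalClosure hu)
    rw [h2, sub_zero]
  rw [h1]
  exact Submodule.Quotient.norm_mk_le (c0 𝕜) (h - u)

/-- The bounded sequence with given values. -/
def mk (f : ℕ → 𝕜) (C : ℝ) (h : ∀ n, ‖f n‖ ≤ C) : Li 𝕜 :=
  BoundedContinuousFunction.ofNormedAddCommGroupDiscrete f C h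

/-- An almost disjoint family indexed by the real numbers. -/
def fam (r : ℝ) : Set ℕ := range fun n : ℕ => Encodable.encode (n, ⌊r * 2 ^ n⌋)

theorem fam_inf (r : ℝ) : (fam r).Infinite := by
  apply infinite_range_of_injective
  intro n m hnm
  have h := Encodable.encode_injective hnm
  exact congrArg Prod.fst h

theorem fam_inter (r s : ℝ) (h : r ≠ s) : (fam r ∩ fam s).Finite := by
  have hpos : 0 < |r - s| := abs_pos.2 (sub_ne_zero.2 h)
  obtain ⟨N, hN⟩ := pow_unbounded_of_one_lt (1 / |r - s|) (one_lt_two)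
  refine ((finite_Iio N).image fun n : ℕ => Encodable.encode (n, ⌊r * 2 ^ n⌋)).subset ?_
  rintro x ⟨⟨n, rfl⟩, m, hm⟩
  refine ⟨n, ?_, rfl⟩
  have h1 := Encodable.encode_injective hm
  have h2 : m = n := congrArg Prod.fst h1
  have h3 : ⌊s * 2 ^ m⌋ = ⌊r * 2 ^ n⌋ := congrArg Prod.snd h1
  rw [h2] at h3
  rw [mem_Iio]
  by_contra hcon
  push Not at hcon
  have h4 : |s * 2 ^ n - r * 2 ^ n| < 1 := Int.abs_sub_lt_one_of_floor_eq_floor h3
  rw [← sub_mul, abs_mul, abs_sub_comm, abs_of_pos (by positivity : (0 : ℝ) < 2 ^ n)] at h4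
  have h5 : (2 : ℝ) ^ N ≤ 2 ^ n := pow_le_pow_right₀ one_le_two hcon
  rw [div_lt_iff₀ hpos] at hN
  nlinarith

open Classical in
/-- The indicator function of a member of the family. -/
def ind (r : ℝ) : Li 𝕜 := mk 𝕜 (fun n => if n ∈ fam r then 1 else 0) 1 (fun n => by
  split <;> simp)

open Classical in
theorem ind_apply (r : ℝ) (n : ℕ) : ind 𝕜 r n = if n ∈ fam r then 1 else 0 := rfl

theorem qm_ind_ne (r : ℝ) : qm 𝕜 (ind 𝕜 r) ≠ 0 := by
  intro h
  have h1 : ind 𝕜 r ∈ c0 𝕜 := (Submodule.Quotient.mk_eq_zero (c0 𝕜)).1 h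
  have h2 : ind 𝕜 r ∈ closure ((finSub 𝕜 : Submodule 𝕜 (Li 𝕜)) : Set (Li 𝕜)) := h1
  rw [Metric.mem_closure_iff] at h2
  obtain ⟨u, hu, hd⟩ := h2 1 one_pos
  obtain ⟨n, hn, hnu⟩ := (fam_inf r).exists_notMem_finite hu
  rw [dist_eq_norm] at hd
  have h3 := (ind 𝕜 r - u).norm_coe_le_norm n
  rw [BoundedContinuousFunction.coe_sub, Pi.sub_apply, ind_apply, if_pos hn] at h3
  have h4 : u n = 0 := by
    by_contra h5
    exact hnu h5
  rw [h4, sub_zero, norm_one] at h3
  linarith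

/-- The norm of a combination of the classes of the indicators with coefficients of norm at most 1. -/
theorem comb_norm (F : Finset ℝ) (e : ℝ → 𝕜) (he : ∀ r, ‖e r‖ ≤ 1) :
    ‖∑ r ∈ F, e r • qm 𝕜 (ind 𝕜 r)‖ ≤ 1 := by
  classical
  set h : Li 𝕜 := ∑ r ∈ F, e r • ind 𝕜 r with hh
  have h1 : ∑ r ∈ F, e r • qm 𝕜 (ind 𝕜 r) = qm 𝕜 h := by
    rw [hh, map_sum]
    exact Finset.sum_congr rfl fun r _ => (map_smul _ _ _).symm
  rw [h1]
  set O : Set ℕ := ⋃ p ∈ F.offDiag, fam p.1 ∩ fam p.2 with hO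
  have hOf : O.Finite := by
    apply F.offDiag.finite_toSet.biUnion
    intro p hp
    rw [Finset.mem_coe, Finset.mem_offDiag] at hp
    exact fam_inter _ _ hp.2.2
  set u : Li 𝕜 := mk 𝕜 (fun n => if n ∈ O then h n else 0) ‖h‖ (fun n => by
    split
    · exact h.norm_coe_le_norm n
    · rw [norm_zero]; exact norm_nonneg _) with hu
  have huf : u ∈ finSub 𝕜 := by
    show {n | u n ≠ 0}.Finite
    refine hOf.subset ?_
    intro n hn
    by_contra hcon
    apply hn
    show (if n ∈ O then h n else 0) = 0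
    rw [if_neg hcon]
  refine (qm_sub 𝕜 h u huf).trans ?_
  rw [BoundedContinuousFunction.norm_le zero_le_one]
  intro n
  rw [BoundedContinuousFunction.coe_sub, Pi.sub_apply]
  have hun : u n = if n ∈ O then h n else 0 := rfl
  rw [hun]
  by_cases hn : n ∈ O
  · rw [if_pos hn, sub_self, norm_zero]; exact zero_le_one
  · rw [if_neg hn, sub_zero]
    have hval : h n = ∑ r ∈ F, e r * (if n ∈ fam r then 1 else 0) := by
      rw [hh, BoundedContinuousFunction.coe_sum, Finset.sum_apply]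
      rfl
    rw [hval]
    by_cases hex : ∃ r ∈ F, n ∈ fam r
    · obtain ⟨r, hr, hnr⟩ := hex
      rw [Finset.sum_eq_single r]
      · rw [if_pos hnr, mul_one]; exact he r
      · intro s hs hsr
        rw [if_neg, mul_zero]
        intro hns
        apply hn
        rw [hO, mem_iUnion₂]
        exact ⟨(r, s), Finset.mem_offDiag.2 ⟨hr, hs, hsr.symm⟩, hnr, hns⟩
      · intro h; exact absurd hr h
    · push Not at hex
      rw [Finset.sum_eq_zero fun r hr => by rw [if_neg (hex r hr), mul_zero], norm_zero]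
      exact zero_le_one

/-- The quotient map has no bounded linear right inverse. -/
theorem no_section : ¬ ∃ s : Qt 𝕜 →L[𝕜] Li 𝕜, ∀ b, qm 𝕜 (s b) = b := by
  classical
  rintro ⟨s, hs⟩
  set b : ℝ → Qt 𝕜 := fun r => qm 𝕜 (ind 𝕜 r) with hb
  have h1 : ∀ r, ∃ p : ℕ × ℕ, 1 / ((p.2 : ℝ) + 1) < ‖s (b r) p.1‖ := by
    intro r
    have h2 : s (b r) ≠ 0 := by
      intro h
      have h3 := hs (b r)
      rw [h, map_zero] at h3
      exact qm_ind_ne 𝕜 r h3.symm
    have h4 : ∃ n, s (b r) n ≠ 0 := by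
      by_contra hcon
      push Not at hcon
      apply h2
      ext n
      exact hcon n
    obtain ⟨n, hn⟩ := h4
    obtain ⟨k, hk⟩ := exists_nat_one_div_lt (norm_pos_iff.2 hn)
    exact ⟨(n, k), hk⟩
  choose φ hφ using h1
  have h2 : ∃ p : ℕ × ℕ, (φ ⁻¹' {p}).Infinite := by
    by_contra hcon
    push Not at hcon
    have h3 : (univ : Set ℝ) = ⋃ p : ℕ × ℕ, φ ⁻¹' {p} := by
      ext r
      simp
    have h4 : (univ : Set ℝ).Countable := by
      rw [h3]
      exact countable_iUnion fun p => (hcon p).countable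
    exact not_countable (countable_univ_iff.1 h4)
  obtain ⟨p, hp⟩ := h2
  obtain ⟨N, hN⟩ := exists_nat_gt (‖s‖ * ((p.2 : ℝ) + 1))
  obtain ⟨F, hF, hFc⟩ := hp.exists_subset_card_eq N
  have h3 : ∀ r, ∃ e : 𝕜, ‖e‖ ≤ 1 ∧ e * s (b r) p.1 = (‖s (b r) p.1‖ : 𝕜) := by
    intro r
    by_cases hz : s (b r) p.1 = 0
    · exact ⟨0, by simp, by simp [hz]⟩
    · refine ⟨(‖s (b r) p.1‖ : 𝕜) / s (b r) p.1, ?_, ?_⟩
      · rw [norm_div, RCLike.norm_ofReal, abs_norm, div_self (norm_ne_zero_iff.2 hz)]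
      · rw [div_mul_cancel₀ _ hz]
  choose e he1 he2 using h3
  have h4 := comb_norm 𝕜 F e he1
  have h5 : ‖s (∑ r ∈ F, e r • b r)‖ ≤ ‖s‖ := by
    refine (s.le_opNorm _).trans ?_
    exact mul_le_of_le_one_right (norm_nonneg _) h4
  have h6 : (s (∑ r ∈ F, e r • b r)) p.1 = ((∑ r ∈ F, ‖s (b r) p.1‖ : ℝ) : 𝕜) := by
    rw [map_sum, BoundedContinuousFunction.coe_sum, Finset.sum_apply, RCLike.ofReal_sum]
    refine Finset.sum_congr rfl fun r _ => ?_
    rw [map_smul]
    exact he2 r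
  have h7 := (s (∑ r ∈ F, e r • b r)).norm_coe_le_norm p.1
  rw [h6, RCLike.norm_ofReal, abs_of_nonneg (Finset.sum_nonneg fun _ _ => norm_nonneg _)] at h7
  have h8 : (N : ℝ) * (1 / ((p.2 : ℝ) + 1)) ≤ ∑ r ∈ F, ‖s (b r) p.1‖ := by
    rw [← hFc, ← nsmul_eq_mul, ← Finset.sum_const]
    refine Finset.sum_le_sum fun r hr => ?_
    have h9 : φ r = p := hF hr
    have h10 := hφ r
    rw [h9] at h10
    exact h10.le
  have h11 : (N : ℝ) * (1 / ((p.2 : ℝ) + 1)) ≤ ‖s‖ := h8.trans (h7.trans h5)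
  rw [mul_one_div, div_le_iff₀ (by positivity)] at h11
  linarith

end

end Pool.Agent.Helper368_SH
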